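import Pool.Agent.K3h76.SB.StmA
import Pool.Agent.K3h96.OS.Gser

set_option autoImplicit false

/-! # The coefficients of the kernel (brick KER of helper76's project SB) -/

namespace Pool.Agent.K3h23.SB

open Finset PowerSeries Pool.Agent.K3h96.OS Pool.Agent.K3h76.SB

/-- the regular factor -/
noncomputable def KK (a b : ℕ) : PowerSeries ℂ :=
  (C (Real.pi : ℂ)⁻¹ * Sn (Real.pi / a)) * (C (Real.pi : ℂ)⁻¹ * Sn (Real.pi / b)) * ti

theorem resc_kern (a b : ℕ) : resc ((Real.pi : ℂ) ^ 2) (kern a b) = KK a b * geo := by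
  rw [kern, map_mul, map_mul, resc_inv, resc_sinh _ pi0, resc_sinh _ pi0, KK]
  push_cast
  rw [mul_one_div, mul_one_div]
  ring

theorem ev_ti : ev ti = 2 := by
  rw [← coeff_zero_Dt, coeff_zero_Dt_ti]

theorem ev_KK (a b : ℕ) : ev (KK a b) = (Real.pi : ℂ)⁻¹ * Complex.sin (Real.pi / a) *
    ((Real.pi : ℂ)⁻¹ * Complex.sin (Real.pi / b)) * 2 := by
  have h : ∀ a : ℕ, ev (C (Real.pi : ℂ)⁻¹ * Sn (Real.pi / a)) =
      (Real.pi : ℂ)⁻¹ * Complex.sin (Real.pi / a) := by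
    intro a
    rw [ev_mul (Wn.const _) (Wn.Sn _), ev_C, ev_Sn]
  rw [KK, ev_mul ((Wn.factor a).mul (Wn.factor b)) Wn.ti, ev_mul (Wn.factor a) (Wn.factor b),
    h, h, ev_ti]

theorem t_KER : S_KER := by
  intro a b _ _
  have hK : Wn (KK a b) := ((Wn.factor a).mul (Wn.factor b)).mul Wn.ti
  obtain ⟨C', θ, hC, h0, h1, hb⟩ := hK.qt.nonneg
  refine ⟨Real.pi * C', θ, h0, h1, fun q => ?_⟩
  have e1 : (((Real.pi : ℂ) ^ 2) ^ q) * ((coeff q (kern a b) : ℚ) : ℂ) =
      ev (KK a b) * (-1) ^ q + coeff q (qt (KK a b)) := by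
    have h2 := congrArg (coeff q) (resc_kern a b)
    rw [coeff_resc] at h2
    rw [h2]
    have h3 : KK a b * geo = C (ev (KK a b)) * geo + qt (KK a b) := by
      have h4 := qt_spec (KK a b)
      calc KK a b * geo = (C (ev (KK a b)) + (1 + X) * qt (KK a b)) * geo := by rw [← h4]
        _ = C (ev (KK a b)) * geo + geo * (1 + X) * qt (KK a b) := by ring
        _ = _ := by rw [geo_mul, one_mul]
    rw [h3, map_add, coeff_C_mul, geo, coeff_mk]
  have e2 : ((Gam a b q - 2 / Real.pi * sn a b : ℝ) : ℂ) =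
      (-1) ^ q * Real.pi * coeff q (qt (KK a b)) := by
    have h5 : coeff q (qt (KK a b)) = (((Real.pi : ℂ) ^ 2) ^ q) * ((coeff q (kern a b) : ℚ) : ℂ) -
        ev (KK a b) * (-1) ^ q := by
      rw [e1]
      ring
    have h6 : ((-1 : ℂ) ^ q) * (-1) ^ q = 1 := by
      rw [← mul_pow]
      norm_num
    rw [h5, ev_KK, Gam, sn]
    push_cast
    have hp := pi0
    have h7 : (Real.pi : ℂ) * ((Real.pi : ℂ)⁻¹ * Complex.sin (Real.pi / a) *
        ((Real.pi : ℂ)⁻¹ * Complex.sin (Real.pi / b)) * 2) =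
        2 / Real.pi * (Complex.sin (Real.pi / a) * Complex.sin (Real.pi / b)) := by
      field_simp
    rw [← h7, pow_succ, pow_mul]
    linear_combination ((Real.pi : ℂ) * ((Real.pi : ℂ)⁻¹ * Complex.sin (Real.pi / a) *
        ((Real.pi : ℂ)⁻¹ * Complex.sin (Real.pi / b)) * 2)) * h6
  have e3 : |Gam a b q - 2 / Real.pi * sn a b| =
      ‖((Gam a b q - 2 / Real.pi * sn a b : ℝ) : ℂ)‖ := by
    rw [Complex.norm_real, Real.norm_eq_abs]
  rw [e3, e2, norm_mul, norm_mul, norm_pow, norm_neg, norm_one, one_pow, one_mul,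
    Complex.norm_real, Real.norm_of_nonneg Real.pi_pos.le, mul_assoc]
  exact mul_le_mul_of_nonneg_left (hb q) Real.pi_pos.le

end Pool.Agent.K3h23.SB
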